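import Mathlib
import Pool.Agent.Q157.ShatterFin

/-!
On every infinite set there is a set system of finite VC-dimension whose maximal-shattering
sequence is not non-decreasing.
-/

namespace Pool.Agent.Results.MP_522a36_co.NotMonotone

variable {X : Type*}

/-- `𝒮` shatters `Y`: every subset of `Y` is of the form `s ∩ Y` with `s ∈ 𝒮`. -/
def Shatters (𝒮 : Set (Set X)) (Y : Set X) : Prop := ∀ Z ⊆ Y, ∃ s ∈ 𝒮, s ∩ Y = Z

/-- The VC-dimension: the supremum in `ℕ∞` of the sizes of the finite shattered sets. -/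
noncomputable def VC (𝒮 : Set (Set X)) : ℕ∞ :=
  ⨆ (Y : Finset X) (_ : Shatters 𝒮 (Y : Set X)), (Y.card : ℕ∞)

/-- The `k`-fold union family. -/
def kUnion (𝒮 : Set (Set X)) (k : ℕ) : Set (Set X) :=
  {U | ∃ f : Fin k → Set X, (∀ i, f i ∈ 𝒮) ∧ U = ⋃ i, f i}

/-- The trace family of `𝒮` on `Y`. -/
def trace (𝒮 : Set (Set X)) (Y : Set X) : Set (Set X) := {T | ∃ s ∈ 𝒮, T = s ∩ Y}

/-- `Y` and `Y'` are shatter-isomorphic. -/
def ShatterIso (𝒮 : Set (Set X)) (Y Y' : Finset X) : Prop :=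
  ∃ f : X → X, Set.BijOn f (Y : Set X) (Y' : Set X) ∧
    (fun T => f '' T) '' trace 𝒮 (Y : Set X) = trace 𝒮 (Y' : Set X)

/-- The sets of size `d_k = VC(𝒮^{∪k})` shattered by `𝒮^{∪k}`. -/
def maxShattered (𝒮 : Set (Set X)) (k : ℕ) : Set (Finset X) :=
  {Y | (Y.card : ℕ∞) = VC (kUnion 𝒮 k) ∧ Shatters (kUnion 𝒮 k) (Y : Set X)}

/-- `s_k`: the number of shatter-isomorphism classes of sets of size `d_k` shattered by
`𝒮^{∪k}`. -/
noncomputable def sSeq (𝒮 : Set (Set X)) (k : ℕ) : ℕ :=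
  Set.ncard {C : Set (Finset X) | ∃ Y ∈ maxShattered 𝒮 k,
    C = {Y' | Y' ∈ maxShattered 𝒮 k ∧ ShatterIso 𝒮 Y Y'}}

open Q157.Shatter

section

variable (a b : Fin 5 ↪ X)

/-- The set with the two parts `P` and `Q`. -/
def E (P Q : Finset (Fin 5)) : Set X := (a '' (P : Set (Fin 5))) ∪ (b '' (Q : Set (Fin 5)))

/-- The set system of the counterexample. -/
def Sys : Set (Set X) := {s | (∃ P ∈ famA, s = E a b P ∅) ∨ ∃ Q ∈ famB, s = E a b ∅ Q}

variable {a b} (hab : ∀ i j, a i ≠ b j)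

include hab in
theorem a_mem_E {P Q : Finset (Fin 5)} {i : Fin 5} : a i ∈ E a b P Q ↔ i ∈ P := by
  unfold E
  constructor
  · rintro (⟨j, hj, h⟩ | ⟨j, hj, h⟩)
    · rwa [← a.injective h]
    · exact absurd h.symm (hab i j)
  · intro h
    exact Or.inl ⟨i, h, rfl⟩

include hab in
theorem b_mem_E {P Q : Finset (Fin 5)} {i : Fin 5} : b i ∈ E a b P Q ↔ i ∈ Q := by
  unfold E
  constructor
  · rintro (⟨j, hj, h⟩ | ⟨j, hj, h⟩)
    · exact absurd h (hab j i)
    · rwa [← b.injective h]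
  · intro h
    exact Or.inr ⟨i, h, rfl⟩

theorem E_union (P P' Q Q' : Finset (Fin 5)) :
    E a b P Q ∪ E a b P' Q' = E a b (P ∪ P') (Q ∪ Q') := by
  unfold E
  rw [Finset.coe_union, Finset.coe_union, Set.image_union, Set.image_union]
  ext x
  simp only [Set.mem_union]
  tauto

include hab in
theorem E_injective {P P' Q Q' : Finset (Fin 5)} (h : E a b P Q = E a b P' Q') :
    P = P' ∧ Q = Q' := by
  constructor
  · ext i
    rw [← a_mem_E hab (P := P) (Q := Q), h, a_mem_E hab]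
  · ext i
    rw [← b_mem_E hab (P := P) (Q := Q), h, b_mem_E hab]

theorem iUnion_two (f : Fin 2 → Set X) : ⋃ i, f i = f 0 ∪ f 1 := by
  ext x
  simp [Fin.exists_fin_two]

theorem iUnion_three (f : Fin 3 → Set X) : ⋃ i, f i = f 0 ∪ f 1 ∪ f 2 := by
  ext x
  simp only [Set.mem_iUnion, Set.mem_union]
  constructor
  · rintro ⟨i, hi⟩
    fin_cases i
    · exact Or.inl (Or.inl hi)
    · exact Or.inl (Or.inr hi)
    · exact Or.inr hi
  · rintro ((h | h) | h)
    · exact ⟨0, h⟩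
    · exact ⟨1, h⟩
    · exact ⟨2, h⟩

/-- The two-fold unions. -/
theorem mem_kUnion_two {U : Set X} : U ∈ kUnion (Sys a b) 2 ↔
    ∃ P Q, U = E a b P Q ∧ (Q = ∅ ∨ P = ∅ ∨ (P ∈ famA ∧ Q ∈ famB)) := by
  constructor
  · rintro ⟨f, hf, rfl⟩
    rw [iUnion_two]
    rcases hf 0 with ⟨P, hP, h0⟩ | ⟨Q, hQ, h0⟩ <;> rcases hf 1 with ⟨P', hP', h1⟩ | ⟨Q', hQ', h1⟩
    · exact ⟨P ∪ P', ∅ ∪ ∅, by rw [h0, h1, E_union], Or.inl (by simp)⟩
    · exact ⟨P ∪ ∅, ∅ ∪ Q', by rw [h0, h1, E_union], Or.inr (Or.inr ⟨by simpa using hP,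
        by simpa using hQ'⟩)⟩
    · exact ⟨∅ ∪ P', Q ∪ ∅, by rw [h0, h1, E_union], Or.inr (Or.inr ⟨by simpa using hP',
        by simpa using hQ⟩)⟩
    · exact ⟨∅ ∪ ∅, Q ∪ Q', by rw [h0, h1, E_union], Or.inr (Or.inl (by simp))⟩
  · rintro ⟨P, Q, rfl, h⟩
    rcases h with rfl | rfl | ⟨hP, hQ⟩
    · obtain ⟨P₁, h1, P₂, h2, rfl⟩ := union_famA P
      refine ⟨![E a b P₁ ∅, E a b P₂ ∅], ?_, ?_⟩
      · intro i; fin_cases i
        · exact Or.inl ⟨P₁, h1, rfl⟩
        · exact Or.inl ⟨P₂, h2, rfl⟩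
      · rw [iUnion_two]
        simp only [Matrix.cons_val_zero, Matrix.cons_val_one, E_union, Finset.union_empty]
    · obtain ⟨P₁, h1, P₂, h2, rfl⟩ := union_famB Q
      refine ⟨![E a b ∅ P₁, E a b ∅ P₂], ?_, ?_⟩
      · intro i; fin_cases i
        · exact Or.inr ⟨P₁, h1, rfl⟩
        · exact Or.inr ⟨P₂, h2, rfl⟩
      · rw [iUnion_two]
        simp only [Matrix.cons_val_zero, Matrix.cons_val_one, E_union, Finset.union_empty]
    · refine ⟨![E a b P ∅, E a b ∅ Q], ?_, ?_⟩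
      · intro i; fin_cases i
        · exact Or.inl ⟨P, hP, rfl⟩
        · exact Or.inr ⟨Q, hQ, rfl⟩
      · rw [iUnion_two]
        simp only [Matrix.cons_val_zero, Matrix.cons_val_one, E_union, Finset.union_empty,
          Finset.empty_union]

/-- The three-fold unions. -/
theorem mem_kUnion_three {U : Set X} : U ∈ kUnion (Sys a b) 3 ↔
    ∃ P Q, U = E a b P Q ∧ (P ∈ famA ∨ Q ∈ famB) := by
  constructor
  · rintro ⟨f, hf, rfl⟩
    rw [iUnion_three]
    have hA := empty_mem_famA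
    have hB := empty_mem_famB
    rcases hf 0 with ⟨P, hP, h0⟩ | ⟨P, hP, h0⟩ <;> rcases hf 1 with ⟨P', hP', h1⟩ | ⟨P', hP', h1⟩ <;>
      rcases hf 2 with ⟨P'', hP'', h2⟩ | ⟨P'', hP'', h2⟩ <;> rw [h0, h1, h2, E_union, E_union] <;>
      refine ⟨_, _, rfl, ?_⟩ <;> simp only [Finset.union_empty, Finset.empty_union] <;> tauto
  · rintro ⟨P, Q, rfl, hP | hQ⟩
    · obtain ⟨P₁, h1, P₂, h2, rfl⟩ := union_famB Q
      refine ⟨![E a b P ∅, E a b ∅ P₁, E a b ∅ P₂], ?_, ?_⟩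
      · intro i; fin_cases i
        · exact Or.inl ⟨P, hP, rfl⟩
        · exact Or.inr ⟨P₁, h1, rfl⟩
        · exact Or.inr ⟨P₂, h2, rfl⟩
      · rw [iUnion_three]
        simp only [Matrix.cons_val_zero, Matrix.cons_val_one, Matrix.cons_val, E_union,
          Finset.union_empty, Finset.empty_union]
    · obtain ⟨P₁, h1, P₂, h2, rfl⟩ := union_famA P
      refine ⟨![E a b P₁ ∅, E a b P₂ ∅, E a b ∅ Q], ?_, ?_⟩
      · intro i; fin_cases i
        · exact Or.inl ⟨P₁, h1, rfl⟩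
        · exact Or.inl ⟨P₂, h2, rfl⟩
        · exact Or.inr ⟨Q, hQ, rfl⟩
      · rw [iUnion_three]
        simp only [Matrix.cons_val_zero, Matrix.cons_val_one, Matrix.cons_val, E_union,
          Finset.union_empty, Finset.empty_union]

open Classical in
/-- The finite set with the two parts `P` and `Q`. -/
noncomputable def FS (a b : Fin 5 ↪ X) (P Q : Finset (Fin 5)) : Finset X :=
  P.map a ∪ Q.map b

theorem coe_FS (P Q : Finset (Fin 5)) : ((FS a b P Q : Finset X) : Set X) = E a b P Q := by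
  classical
  unfold FS E
  ext x
  simp

include hab in
theorem card_FS (P Q : Finset (Fin 5)) : (FS a b P Q).card = P.card + Q.card := by
  classical
  unfold FS
  rw [Finset.card_union_of_disjoint, Finset.card_map, Finset.card_map]
  rw [Finset.disjoint_left]
  intro x hx hx'
  rw [Finset.mem_map] at hx hx'
  obtain ⟨i, _, rfl⟩ := hx
  obtain ⟨j, _, h⟩ := hx'
  exact hab i j h.symm

/-- A set shattered by a family of sets `E P Q` is itself of this form. -/
theorem eq_FS {𝒯 : Set (Set X)} (h𝒯 : ∀ U ∈ 𝒯, ∃ P Q, U = E a b P Q) {Y : Finset X}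
    (hY : Shatters 𝒯 (Y : Set X)) : ∃ P Q, Y = FS a b P Q := by
  classical
  obtain ⟨s, hs, hsY⟩ := hY Y (le_refl _)
  obtain ⟨P, Q, rfl⟩ := h𝒯 s hs
  have hsub : ∀ y ∈ Y, y ∈ E a b P Q := by
    intro y hy
    have : y ∈ E a b P Q ∩ (Y : Set X) := by rw [hsY]; exact hy
    exact this.1
  refine ⟨Finset.univ.filter fun i => a i ∈ Y, Finset.univ.filter fun i => b i ∈ Y, ?_⟩
  ext y
  unfold FS
  simp only [Finset.mem_union, Finset.mem_map, Finset.mem_filter, Finset.mem_univ, true_and]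
  constructor
  · intro hy
    rcases hsub y hy with ⟨i, _, rfl⟩ | ⟨i, _, rfl⟩
    · exact Or.inl ⟨i, hy, rfl⟩
    · exact Or.inr ⟨i, hy, rfl⟩
  · rintro (⟨i, hi, rfl⟩ | ⟨i, hi, rfl⟩)
    · exact hi
    · exact hi

include hab in
/-- Shattering in terms of the parts. -/
theorem shatters_parts {𝒯 : Set (Set X)} {R : Finset (Fin 5) → Finset (Fin 5) → Prop}
    (h𝒯 : ∀ U, U ∈ 𝒯 ↔ ∃ P Q, U = E a b P Q ∧ R P Q) {YA YB : Finset (Fin 5)} :
    Shatters 𝒯 ((FS a b YA YB : Finset X) : Set X) ↔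
      ∀ P ⊆ YA, ∀ Q ⊆ YB, ∃ P' Q', R P' Q' ∧ P' ∩ YA = P ∧ Q' ∩ YB = Q := by
  have hinter : ∀ P Q P' Q' : Finset (Fin 5), E a b P Q ∩ E a b P' Q' = E a b (P ∩ P') (Q ∩ Q') := by
    intro P Q P' Q'
    unfold E
    rw [Finset.coe_inter, Finset.coe_inter, Set.image_inter a.injective,
      Set.image_inter b.injective]
    ext x
    constructor
    · rintro ⟨h1 | h1, h2 | h2⟩
      · exact Or.inl ⟨h1, h2⟩
      · obtain ⟨i, _, rfl⟩ := h1
        obtain ⟨j, _, h⟩ := h2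
        exact absurd h.symm (hab i j)
      · obtain ⟨i, _, rfl⟩ := h1
        obtain ⟨j, _, h⟩ := h2
        exact absurd h (hab j i)
      · exact Or.inr ⟨h1, h2⟩
    · rintro (⟨h1, h2⟩ | ⟨h1, h2⟩)
      · exact ⟨Or.inl h1, Or.inl h2⟩
      · exact ⟨Or.inr h1, Or.inr h2⟩
  rw [coe_FS]
  constructor
  · intro h P hP Q hQ
    have hsub : E a b P Q ⊆ E a b YA YB :=
      Set.union_subset_union (Set.image_mono (Finset.coe_subset.2 hP))
        (Set.image_mono (Finset.coe_subset.2 hQ))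
    obtain ⟨s, hs, hsY⟩ := h _ hsub
    obtain ⟨P', Q', rfl, hR⟩ := (h𝒯 s).1 hs
    rw [hinter] at hsY
    exact ⟨P', Q', hR, (E_injective hab hsY).1, (E_injective hab hsY).2⟩
  · intro h Z hZ
    classical
    have hZE : Z = E a b (Finset.univ.filter fun i => a i ∈ Z)
        (Finset.univ.filter fun i => b i ∈ Z) := by
      ext x
      constructor
      · intro hx
        rcases hZ hx with ⟨i, _, rfl⟩ | ⟨i, _, rfl⟩
        · exact Or.inl ⟨i, by simpa using hx, rfl⟩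
        · exact Or.inr ⟨i, by simpa using hx, rfl⟩
      · rintro (⟨i, hi, rfl⟩ | ⟨i, hi, rfl⟩)
        · simpa using hi
        · simpa using hi
    obtain ⟨P', Q', hR, h1, h2⟩ := h (Finset.univ.filter fun i => a i ∈ Z)
      (by
        intro i hi
        rw [Finset.mem_filter] at hi
        exact (a_mem_E hab).1 (hZ hi.2))
      (Finset.univ.filter fun i => b i ∈ Z)
      (by
        intro i hi
        rw [Finset.mem_filter] at hi
        exact (b_mem_E hab).1 (hZ hi.2))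
    refine ⟨E a b P' Q', (h𝒯 _).2 ⟨P', Q', rfl, hR⟩, ?_⟩
    rw [hinter, h1, h2, ← hZE]

theorem VC_eq {𝒯 : Set (Set X)} {d : ℕ} (h1 : ∃ Y : Finset X, Shatters 𝒯 (Y : Set X) ∧ Y.card = d)
    (h2 : ∀ Y : Finset X, Shatters 𝒯 (Y : Set X) → Y.card ≤ d) : VC 𝒯 = d := by
  apply le_antisymm
  · exact iSup₂_le fun Y hY => by exact_mod_cast h2 Y hY
  · obtain ⟨Y, hY, rfl⟩ := h1
    exact le_iSup₂_of_le Y hY le_rfl

include hab in
/-- Sets shattered by the two-fold unions. -/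
theorem two_le {YA YB : Finset (Fin 5)}
    (h : Shatters (kUnion (Sys a b) 2) ((FS a b YA YB : Finset X) : Set X)) :
    YA.card + YB.card ≤ 5 := by
  rw [shatters_parts hab (fun U => mem_kUnion_two)] at h
  rcases YA.eq_empty_or_nonempty with hA | ⟨y, hy⟩
  · rw [hA]
    have := Finset.card_le_univ YB
    simpa using this
  rcases YB.eq_empty_or_nonempty with hB | ⟨z, hz⟩
  · rw [hB]
    have := Finset.card_le_univ YA
    simpa using this
  have h1 : ∀ P ∈ YA.powerset, ∃ P' ∈ famA, P' ∩ YA = P := by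
    intro P hP
    rw [Finset.mem_powerset] at hP
    rcases P.eq_empty_or_nonempty with hP0 | hP0
    · exact ⟨∅, empty_mem_famA, by rw [hP0, Finset.empty_inter]⟩
    · obtain ⟨P', Q', hR, e1, e2⟩ := h P hP {z} (Finset.singleton_subset_iff.2 hz)
      rcases hR with rfl | rfl | ⟨h1, _⟩
      · rw [Finset.empty_inter] at e2
        exact absurd e2.symm (Finset.singleton_ne_empty z)
      · rw [Finset.empty_inter] at e1
        exact absurd e1.symm hP0.ne_empty
      · exact ⟨P', h1, e1⟩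
  have h2 : ∀ Q ∈ YB.powerset, ∃ Q' ∈ famB, Q' ∩ YB = Q := by
    intro Q hQ
    rw [Finset.mem_powerset] at hQ
    rcases Q.eq_empty_or_nonempty with hQ0 | hQ0
    · exact ⟨∅, empty_mem_famB, by rw [hQ0, Finset.empty_inter]⟩
    · obtain ⟨P', Q', hR, e1, e2⟩ := h {y} (Finset.singleton_subset_iff.2 hy) Q hQ
      rcases hR with rfl | rfl | ⟨_, h1⟩
      · rw [Finset.empty_inter] at e2
        exact absurd e2.symm hQ0.ne_empty
      · rw [Finset.empty_inter] at e1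
        exact absurd e1.symm (Finset.singleton_ne_empty y)
      · exact ⟨Q', h1, e2⟩
  have h3 := (shatter_famA YA h1).1
  have h4 := shatter_famB YB h2
  omega

include hab in
/-- Sets shattered by the three-fold unions. -/
theorem three_le {YA YB : Finset (Fin 5)}
    (h : Shatters (kUnion (Sys a b) 3) ((FS a b YA YB : Finset X) : Set X)) :
    YA.card + YB.card ≤ 8 ∧ (YA.card + YB.card = 8 → YA = {0, 1, 2} ∧ YB = Finset.univ) := by
  rw [shatters_parts hab (fun U => mem_kUnion_three)] at h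
  have hor : (∀ P ∈ YA.powerset, ∃ P' ∈ famA, P' ∩ YA = P) ∨
      (∀ Q ∈ YB.powerset, ∃ Q' ∈ famB, Q' ∩ YB = Q) := by
    by_contra hcon
    push Not at hcon
    obtain ⟨⟨P, hP, hP'⟩, ⟨Q, hQ, hQ'⟩⟩ := hcon
    obtain ⟨P', Q', hR, e1, e2⟩ := h P (Finset.mem_powerset.1 hP) Q (Finset.mem_powerset.1 hQ)
    rcases hR with h1 | h1
    · exact hP' P' h1 e1
    · exact hQ' Q' h1 e2
  have hA : YA.card ≤ 5 := by simpa using Finset.card_le_univ YA
  have hB : YB.card ≤ 5 := by simpa using Finset.card_le_univ YB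
  rcases hor with h1 | h1
  · obtain ⟨h2, h3⟩ := shatter_famA YA h1
    refine ⟨by omega, fun h4 => ⟨h3 (by omega), ?_⟩⟩
    exact Finset.eq_univ_of_card YB (by rw [Fintype.card_fin]; omega)
  · have h2 := shatter_famB YB h1
    exact ⟨by omega, fun h4 => by omega⟩

include hab in
theorem VC_two : VC (kUnion (Sys a b) 2) = (5 : ℕ) := by
  apply VC_eq
  · refine ⟨FS a b Finset.univ ∅, ?_, ?_⟩
    · rw [shatters_parts hab (fun U => mem_kUnion_two)]
      intro P hP Q hQ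
      refine ⟨P, ∅, Or.inl rfl, Finset.inter_univ P, ?_⟩
      rw [Finset.empty_inter]
      exact (Finset.subset_empty.1 hQ).symm
    · rw [card_FS hab]; simp
  · intro Y hY
    obtain ⟨P, Q, rfl⟩ := eq_FS (fun U hU => by
      obtain ⟨P, Q, h, _⟩ := mem_kUnion_two.1 hU
      exact ⟨P, Q, h⟩) hY
    rw [card_FS hab]
    exact two_le hab hY

include hab in
theorem VC_three : VC (kUnion (Sys a b) 3) = (8 : ℕ) := by
  apply VC_eq
  · refine ⟨FS a b {0, 1, 2} Finset.univ, ?_, ?_⟩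
    · rw [shatters_parts hab (fun U => mem_kUnion_three)]
      intro P hP Q hQ
      exact ⟨P, Q, Or.inl (sub_mem_famA P (Finset.mem_powerset.2 hP)),
        Finset.inter_eq_left.2 hP, Finset.inter_univ Q⟩
    · rw [card_FS hab]; rfl
  · intro Y hY
    obtain ⟨P, Q, rfl⟩ := eq_FS (fun U hU => by
      obtain ⟨P, Q, h, _⟩ := mem_kUnion_three.1 hU
      exact ⟨P, Q, h⟩) hY
    rw [card_FS hab]
    exact (three_le hab hY).1

theorem VC_one_lt : VC (Sys a b) < ⊤ := by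
  have h : VC (Sys a b) ≤ (10 : ℕ) := by
    refine iSup₂_le fun Y hY => ?_
    obtain ⟨P, Q, rfl⟩ := eq_FS (a := a) (b := b) (fun U hU => by
      rcases hU with ⟨P, _, h⟩ | ⟨Q, _, h⟩
      · exact ⟨P, ∅, h⟩
      · exact ⟨∅, Q, h⟩) hY
    have h1 : (FS a b P Q).card ≤ 10 := by
      classical
      unfold FS
      refine (Finset.card_union_le _ _).trans ?_
      rw [Finset.card_map, Finset.card_map]
      have hA : P.card ≤ 5 := by simpa using Finset.card_le_univ P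
      have hB : Q.card ≤ 5 := by simpa using Finset.card_le_univ Q
      omega
    exact_mod_cast h1
  exact lt_of_le_of_lt h (by exact_mod_cast ENat.natCast_lt_top 10)

include hab in
theorem sSeq_three : sSeq (Sys a b) 3 = 1 := by
  have hmax : maxShattered (Sys a b) 3 ⊆ {FS a b {0, 1, 2} Finset.univ} := by
    rintro Y ⟨hc, hY⟩
    obtain ⟨P, Q, rfl⟩ := eq_FS (fun U hU => by
      obtain ⟨P, Q, h, _⟩ := mem_kUnion_three.1 hU
      exact ⟨P, Q, h⟩) hY
    rw [VC_three hab, card_FS hab] at hc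
    have hc' : P.card + Q.card = 8 := by exact_mod_cast hc
    obtain ⟨rfl, rfl⟩ := (three_le hab hY).2 hc'
    rfl
  have hmem : FS a b {0, 1, 2} Finset.univ ∈ maxShattered (Sys a b) 3 := by
    refine ⟨?_, ?_⟩
    · rw [VC_three hab, card_FS hab]; rfl
    · rw [shatters_parts hab (fun U => mem_kUnion_three)]
      intro P hP Q hQ
      exact ⟨P, Q, Or.inl (sub_mem_famA P (Finset.mem_powerset.2 hP)),
        Finset.inter_eq_left.2 hP, Finset.inter_univ Q⟩
  unfold sSeq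
  rw [Set.ncard_eq_one]
  refine ⟨{Y' | Y' ∈ maxShattered (Sys a b) 3 ∧
    ShatterIso (Sys a b) (FS a b {0, 1, 2} Finset.univ) Y'}, ?_⟩
  ext C
  simp only [Set.mem_ofPred_eq, Set.mem_singleton_iff]
  constructor
  · rintro ⟨Y, hY, rfl⟩
    rw [hmax hY]
  · rintro rfl
    exact ⟨_, hmem, rfl⟩

include hab in
theorem trace_left : trace (Sys a b) ((FS a b Finset.univ ∅ : Finset X) : Set X) =
    (fun P => E a b P ∅) '' (famA : Set (Finset (Fin 5))) := by
  rw [coe_FS]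
  have h1 : ∀ P Q : Finset (Fin 5), E a b P Q ∩ E a b Finset.univ ∅ = E a b P ∅ := by
    intro P Q
    ext x
    constructor
    · rintro ⟨h1 | ⟨i, _, rfl⟩, h2 | ⟨j, hj, _⟩⟩
      · exact Or.inl h1
      · simp at hj
      · obtain ⟨j, _, h⟩ := h2
        exact absurd h (hab j i)
      · simp at hj
    · rintro (⟨i, hi, rfl⟩ | ⟨i, hi, _⟩)
      · exact ⟨Or.inl ⟨i, hi, rfl⟩, Or.inl ⟨i, by simp, rfl⟩⟩
      · simp at hi
  ext T
  constructor
  · rintro ⟨s, ⟨P, hP, rfl⟩ | ⟨Q, hQ, rfl⟩, rfl⟩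
    · exact ⟨P, hP, (h1 P ∅).symm⟩
    · exact ⟨∅, by exact_mod_cast empty_mem_famA, (h1 ∅ Q).symm⟩
  · rintro ⟨P, hP, rfl⟩
    exact ⟨E a b P ∅, Or.inl ⟨P, by exact_mod_cast hP, rfl⟩, (h1 P ∅).symm⟩

include hab in
theorem trace_right : trace (Sys a b) ((FS a b ∅ Finset.univ : Finset X) : Set X) =
    (fun Q => E a b ∅ Q) '' (famB : Set (Finset (Fin 5))) := by
  rw [coe_FS]
  have h1 : ∀ P Q : Finset (Fin 5), E a b P Q ∩ E a b ∅ Finset.univ = E a b ∅ Q := by
    intro P Q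
    ext x
    constructor
    · rintro ⟨h1 | h1, ⟨j, hj, _⟩ | h2⟩
      · simp at hj
      · obtain ⟨i, _, rfl⟩ := h1
        obtain ⟨j, _, h⟩ := h2
        exact absurd h.symm (hab i j)
      · simp at hj
      · exact Or.inr h1
    · rintro (⟨i, hi, _⟩ | ⟨i, hi, rfl⟩)
      · simp at hi
      · exact ⟨Or.inr ⟨i, hi, rfl⟩, Or.inr ⟨i, by simp, rfl⟩⟩
  ext T
  constructor
  · rintro ⟨s, ⟨P, hP, rfl⟩ | ⟨Q, hQ, rfl⟩, rfl⟩
    · exact ⟨∅, by exact_mod_cast empty_mem_famB, (h1 P ∅).symm⟩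
    · exact ⟨Q, hQ, (h1 ∅ Q).symm⟩
  · rintro ⟨P, hP, rfl⟩
    exact ⟨E a b ∅ P, Or.inr ⟨P, by exact_mod_cast hP, rfl⟩, (h1 ∅ P).symm⟩

include hab in
theorem not_iso : ¬ ShatterIso (Sys a b) (FS a b Finset.univ ∅) (FS a b ∅ Finset.univ) := by
  rintro ⟨f, hf, heq⟩
  have h1 : (trace (Sys a b) ((FS a b Finset.univ ∅ : Finset X) : Set X)).ncard = 11 := by
    rw [trace_left hab, Set.ncard_image_of_injective _ (fun P P' h => (E_injective hab h).1),
      Set.ncard_coe_finset, card_famA]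
  have h2 : (trace (Sys a b) ((FS a b ∅ Finset.univ : Finset X) : Set X)).ncard = 12 := by
    rw [trace_right hab, Set.ncard_image_of_injective _ (fun P P' h => (E_injective hab h).2),
      Set.ncard_coe_finset, card_famB]
  have h3 : (trace (Sys a b) ((FS a b Finset.univ ∅ : Finset X) : Set X)).Finite := by
    rw [trace_left hab]
    exact (Finset.finite_toSet famA).image _
  have h4 := Set.ncard_image_le h3 (f := fun T => f '' T)
  rw [heq, h1, h2] at h4
  omega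

include hab in
theorem two_le_sSeq : 1 < sSeq (Sys a b) 2 := by
  have hfin : (maxShattered (Sys a b) 2).Finite := by
    apply Set.Finite.subset (Set.finite_range fun q : Finset (Fin 5) × Finset (Fin 5) =>
      FS a b q.1 q.2)
    rintro Y ⟨_, hY⟩
    obtain ⟨P, Q, rfl⟩ := eq_FS (fun U hU => by
      obtain ⟨P, Q, h, _⟩ := mem_kUnion_two.1 hU
      exact ⟨P, Q, h⟩) hY
    exact ⟨(P, Q), rfl⟩
  have hL : FS a b Finset.univ ∅ ∈ maxShattered (Sys a b) 2 := by
    refine ⟨?_, ?_⟩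
    · rw [VC_two hab, card_FS hab]; rfl
    · rw [shatters_parts hab (fun U => mem_kUnion_two)]
      intro P hP Q hQ
      refine ⟨P, ∅, Or.inl rfl, Finset.inter_univ P, ?_⟩
      rw [Finset.empty_inter]
      exact (Finset.subset_empty.1 hQ).symm
  have hR : FS a b ∅ Finset.univ ∈ maxShattered (Sys a b) 2 := by
    refine ⟨?_, ?_⟩
    · rw [VC_two hab, card_FS hab]; rfl
    · rw [shatters_parts hab (fun U => mem_kUnion_two)]
      intro P hP Q hQ
      refine ⟨∅, Q, Or.inr (Or.inl rfl), ?_, Finset.inter_univ Q⟩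
      rw [Finset.empty_inter]
      exact (Finset.subset_empty.1 hP).symm
  unfold sSeq
  have hfin2 : {C : Set (Finset X) | ∃ Y ∈ maxShattered (Sys a b) 2,
      C = {Y' | Y' ∈ maxShattered (Sys a b) 2 ∧ ShatterIso (Sys a b) Y Y'}}.Finite := by
    apply Set.Finite.subset (hfin.image fun Y =>
      {Y' | Y' ∈ maxShattered (Sys a b) 2 ∧ ShatterIso (Sys a b) Y Y'})
    rintro C ⟨Y, hY, rfl⟩
    exact ⟨Y, hY, rfl⟩
  rw [Set.one_lt_ncard hfin2]
  refine ⟨_, ⟨_, hL, rfl⟩, _, ⟨_, hR, rfl⟩, ?_⟩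
  intro heq
  have hmem : FS a b ∅ Finset.univ ∈ {Y' | Y' ∈ maxShattered (Sys a b) 2 ∧
      ShatterIso (Sys a b) (FS a b ∅ Finset.univ) Y'} := by
    refine ⟨hR, id, Set.bijOn_id _, ?_⟩
    simp
  rw [← heq] at hmem
  exact not_iso hab hmem.2

end

/-- On every infinite set there is a set system of finite VC-dimension with
`s₃ = 1 < s₂` (moreover `d₂ = 5` and `d₃ = 8`). -/
theorem result (X : Type*) [Infinite X] : ∃ 𝒮 : Set (Set X), VC 𝒮 < ⊤ ∧
    VC (kUnion 𝒮 2) = 5 ∧ VC (kUnion 𝒮 3) = 8 ∧ sSeq 𝒮 3 = 1 ∧ sSeq 𝒮 3 < sSeq 𝒮 2 := by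
  obtain ⟨e⟩ : Nonempty (ℕ ↪ X) := ⟨Infinite.natEmbedding X⟩
  let a : Fin 5 ↪ X := ⟨fun i => e i, fun i j h => Fin.ext (e.injective h)⟩
  let b : Fin 5 ↪ X := ⟨fun i => e (5 + i), fun i j h => Fin.ext (by
    have := e.injective h; omega)⟩
  have hab : ∀ i j, a i ≠ b j := by
    intro i j h
    have : (i : ℕ) = 5 + j := e.injective h
    omega
  refine ⟨Sys a b, VC_one_lt, VC_two hab, VC_three hab, sSeq_three hab, ?_⟩
  rw [sSeq_three hab]
  exact two_le_sSeq hab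

end Pool.Agent.Results.MP_522a36_co.NotMonotone
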